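import Pool.Agent.H.MP_f6aff2_lc.A

namespace Pool.Agent.Results.MP_f6aff2_lc.Hard

open Pool.Agent.Lib.CX Pool.Agent.H.MP_f6aff2_lc

theorem result :
    (NPHard fun a : Gr × ℤ => gammaZ a.1.G ≤ ((a.2 : ℝ) : EReal)) ∧
    (NPHard fun a : Gr => gammaZ a.G ≤ ((2 : ℝ) : EReal)) := by
  refine ⟨hard2.red ⟨fun a => (a, 2), by fun_prop, fun _ => Iff.rfl⟩, ?_⟩
  have := hard2
  simpa using this

end Pool.Agent.Results.MP_f6aff2_lc.Hard
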